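import Pool.Agent.Lib.MP_abd978_an.UN.Interfaces

/-!
# Project UNW, modules SCALE and MONC: scaling of harmonic functions and of operators;
quantitative strict monotonicity
-/

set_option autoImplicit false

open MeasureTheory Metric Set Filter Topology ContDiff
open scoped Gradient RealInnerProductSpace NNReal ENNReal

namespace Pool.Agent.Lib.MP_abd978_an.UN.H49

/-! ### The affine mapping -/

/-- `y ↦ x₀ + r y` -/
noncomputable def tau {n : ℕ} (x₀ : E n) (r : ℝ) (y : E n) : E n := x₀ + r • y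

theorem contDiff_tau {n : ℕ} (x₀ : E n) (r : ℝ) : ContDiff ℝ ∞ (tau x₀ r) :=
  contDiff_const.add (contDiff_id.const_smul r)

/-- the homeomorphism -/
noncomputable def tauH {n : ℕ} (x₀ : E n) (r : ℝ) (hr : r ≠ 0) : E n ≃ₜ E n :=
  (Homeomorph.smulOfNeZero r hr).trans (Homeomorph.addLeft x₀)

theorem tauH_apply {n : ℕ} (x₀ : E n) (r : ℝ) (hr : r ≠ 0) : ⇑(tauH x₀ r hr) = tau x₀ r := rfl

theorem emb_tau {n : ℕ} (x₀ : E n) {r : ℝ} (hr : r ≠ 0) : MeasurableEmbedding (tau x₀ r) := by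
  rw [← tauH_apply x₀ r hr]
  exact (tauH x₀ r hr).measurableEmbedding

/-- the constant of the change of variables -/
noncomputable def cst (n : ℕ) (r : ℝ) : ℝ≥0∞ := ENNReal.ofReal |(r ^ n)⁻¹|

theorem map_tau {n : ℕ} (x₀ : E n) {r : ℝ} (hr : r ≠ 0) :
    Measure.map (tau x₀ r) volume = cst n r • (volume : Measure (E n)) := by
  have h1 : tau x₀ r = (fun y => x₀ + y) ∘ fun y => r • y := rfl
  rw [h1, ← Measure.map_map (measurable_const_add x₀) (measurable_const_smul r),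
    Measure.map_addHaar_smul _ hr, Measure.map_smul, map_add_left_eq_self,
    finrank_euclideanSpace_fin]
  rfl

theorem map_tau_restrict {n : ℕ} (x₀ : E n) {r : ℝ} (hr : r ≠ 0) (S : Set (E n)) :
    Measure.map (tau x₀ r) (volume.restrict (tau x₀ r ⁻¹' S)) =
      cst n r • (volume : Measure (E n)).restrict S := by
  rw [← (emb_tau x₀ hr).restrict_map, map_tau x₀ hr, Measure.restrict_smul]

theorem eLpNorm_tau {n : ℕ} {F : Type} [NormedAddCommGroup F] (x₀ : E n) {r : ℝ} (hr : r ≠ 0)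
    (S : Set (E n)) (q : ℝ≥0∞) (hq : q ≠ ⊤) (g : E n → F) :
    eLpNorm (fun y => g (tau x₀ r y)) q (volume.restrict (tau x₀ r ⁻¹' S)) =
      cst n r ^ (1 / q).toReal • eLpNorm g q (volume.restrict S) := by
  have h1 := (emb_tau x₀ hr).eLpNorm_map_measure (g := g) (p := q)
    (μ := volume.restrict (tau x₀ r ⁻¹' S))
  rw [map_tau_restrict x₀ hr, eLpNorm_smul_measure_of_ne_top hq] at h1
  exact h1.symm

theorem memLp_tau {n : ℕ} {F : Type} [NormedAddCommGroup F] (x₀ : E n) {r : ℝ} (hr : r ≠ 0)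
    (S : Set (E n)) (q : ℝ≥0∞) (g : E n → F) (hg : MemLp g q (volume.restrict S)) :
    MemLp (fun y => g (tau x₀ r y)) q (volume.restrict (tau x₀ r ⁻¹' S)) := by
  have h1 := (emb_tau x₀ hr).memLp_map_measure_iff (g := g) (p := q)
    (μ := volume.restrict (tau x₀ r ⁻¹' S))
  rw [map_tau_restrict x₀ hr] at h1
  exact h1.1 (hg.smul_measure ENNReal.ofReal_ne_top)

theorem grad_tau {n : ℕ} (x₀ : E n) (r : ℝ) (g : E n → ℝ) (y : E n) :
    ∇ (fun y => g (tau x₀ r y)) y = r • ∇ g (tau x₀ r y) := by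
  rw [grad_eq, grad_eq]
  have h1 : fderiv ℝ (fun y => g (tau x₀ r y)) y = r • fderiv ℝ g (tau x₀ r y) := by
    have h2 := fderiv_comp_smul (𝕜 := ℝ) (f := fun z => g (x₀ + z)) (x := y) r
    rw [fderiv_comp_add_left] at h2
    exact h2
  rw [h1, map_smul]

theorem isSob_tau {n : ℕ} {p : ℝ} (x₀ : E n) {r : ℝ} (hr : r ≠ 0) {S : Set (E n)}
    {u : E n → ℝ} {v : E n → E n} (h : IsSob volume p S u v) :
    IsSob volume p (tau x₀ r ⁻¹' S) (fun y => u (tau x₀ r y))
      (fun y => r • v (tau x₀ r y)) := by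
  obtain ⟨h1, h2, φ, h3, h4, h5⟩ := h
  refine ⟨memLp_tau x₀ hr S _ u h1, (memLp_tau x₀ hr S _ v h2).const_smul r,
    fun i y => φ i (tau x₀ r y), fun i => ?_, ?_, ?_⟩
  · exact (h3 i).comp (contDiff_tau x₀ r).contDiffOn fun y hy => hy
  · have h6 : ∀ i, eLpNorm (fun y => φ i (tau x₀ r y) - u (tau x₀ r y)) (ENNReal.ofReal p)
        (volume.restrict (tau x₀ r ⁻¹' S)) =
          cst n r ^ (1 / ENNReal.ofReal p).toReal *
            eLpNorm (fun x => φ i x - u x) (ENNReal.ofReal p) (volume.restrict S) := fun i =>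
      eLpNorm_tau x₀ hr S _ ENNReal.ofReal_ne_top fun x => φ i x - u x
    simp only [h6]
    have h7 := ENNReal.Tendsto.const_mul h4
      (Or.inr (ENNReal.rpow_ne_top_of_nonneg (ENNReal.toReal_nonneg
        (a := 1 / ENNReal.ofReal p)) (ENNReal.ofReal_ne_top (r := |(r ^ n)⁻¹|))))
    rw [mul_zero] at h7
    exact h7
  · have h6 : ∀ i, eLpNorm (fun y => ∇ (fun y => φ i (tau x₀ r y)) y - r • v (tau x₀ r y))
        (ENNReal.ofReal p) (volume.restrict (tau x₀ r ⁻¹' S)) =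
          (‖r‖ₑ * cst n r ^ (1 / ENNReal.ofReal p).toReal) *
            eLpNorm (fun x => ∇ (φ i) x - v x) (ENNReal.ofReal p) (volume.restrict S) := by
      intro i
      have h7 : (fun y => ∇ (fun y => φ i (tau x₀ r y)) y - r • v (tau x₀ r y)) =
          r • fun y => (∇ (φ i) (tau x₀ r y) - v (tau x₀ r y)) := by
        funext y
        rw [grad_tau]
        simp [smul_sub]
      rw [h7, eLpNorm_const_smul, eLpNorm_tau x₀ hr S _ ENNReal.ofReal_ne_top
        (fun x => ∇ (φ i) x - v x), smul_eq_mul, mul_assoc]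
    simp only [h6]
    have h7 := ENNReal.Tendsto.const_mul h5
      (Or.inr (ENNReal.mul_ne_top (enorm_ne_top (x := r))
        (ENNReal.rpow_ne_top_of_nonneg (ENNReal.toReal_nonneg
        (a := 1 / ENNReal.ofReal p)) (ENNReal.ofReal_ne_top (r := |(r ^ n)⁻¹|)))))
    rw [mul_zero] at h7
    exact h7

/-- one direction of SCALE -/
theorem harm_tau {n : ℕ} {p : ℝ} {a : E n → E n → E n}
    (hhom : ∀ x (l : ℝ) ξ, 0 < l → a x (l • ξ) = l ^ (p - 1) • a x ξ) (x₀ : E n) {r : ℝ}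
    (hr : 0 < r) {U : Set (E n)} {u : E n → ℝ} (h : Harm volume p a U u) :
    Harm volume p (fun y ξ => a (tau x₀ r y) ξ) (tau x₀ r ⁻¹' U)
      fun y => u (tau x₀ r y) := by
  obtain ⟨h1, v, h2, h3⟩ := h
  have hr0 := hr.ne'
  refine ⟨h1.comp (contDiff_tau x₀ r).continuous.continuousOn fun y hy => hy,
    fun y => r • v (tau x₀ r y), fun D hD1 hD2 hD3 => ?_, fun φ hφ => ?_⟩
  · have h4 : D = tau x₀ r ⁻¹' (tauH x₀ r hr0 '' D) := by
      rw [← tauH_apply x₀ r hr0, Set.preimage_image_eq _ (tauH x₀ r hr0).injective]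
    rw [h4]
    refine isSob_tau x₀ hr0 (h2 _ ((tauH x₀ r hr0).isOpenMap D hD1) ?_ ?_)
    · rw [← (tauH x₀ r hr0).image_closure]
      exact hD2.image (tauH x₀ r hr0).continuous
    · rw [← (tauH x₀ r hr0).image_closure]
      rintro x ⟨y, hy, rfl⟩
      exact hD3 hy
  · set φ' : E n → ℝ := fun x => φ ((tauH x₀ r hr0).symm x) with hφ'
    have hsymm : ∀ y, (tauH x₀ r hr0).symm (tau x₀ r y) = y := fun y =>
      (tauH x₀ r hr0).symm_apply_apply y
    have hsymm2 : ⇑(tauH x₀ r hr0).symm = fun x => r⁻¹ • (-x₀ + x) := rfl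
    have h4 : (fun y => φ' (tau x₀ r y)) = φ := by
      funext y
      rw [hφ']
      simp only
      rw [hsymm]
    have h5 : Test U φ' := by
      refine ⟨hφ.1.comp ?_, hφ.2.1.comp_homeomorph _, ?_⟩
      · rw [hsymm2]
        exact (contDiff_const.add (contDiff_id (𝕜 := ℝ) (E := E n))).const_smul r⁻¹
      · intro x hx
        have h6 : (tauH x₀ r hr0).symm x ∈ tsupport φ := by
          have h7 := tsupport_comp_subset_preimage φ (tauH x₀ r hr0).symm.continuous hx
          exact h7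
        have h7 := hφ.2.2 h6
        have h8 : tau x₀ r ((tauH x₀ r hr0).symm x) ∈ U := h7
        rwa [← tauH_apply x₀ r hr0, (tauH x₀ r hr0).apply_symm_apply] at h8
    have h6 := h3 φ' h5
    have h7 : ∀ y, ⟪a (tau x₀ r y) (r • v (tau x₀ r y)), ∇ φ y⟫ =
        (r ^ (p - 1) * r) * ⟪a (tau x₀ r y) (v (tau x₀ r y)), ∇ φ' (tau x₀ r y)⟫ := by
      intro y
      rw [hhom _ _ _ hr]
      have h8 : ∇ φ y = r • ∇ φ' (tau x₀ r y) := by
        rw [← grad_tau, h4]
      rw [h8, real_inner_smul_left, real_inner_smul_right]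
      ring
    simp only [h7]
    rw [integral_const_mul]
    have h8 := (emb_tau x₀ hr0).integral_map (μ := volume)
      (fun x => ⟪a x (v x), ∇ φ' x⟫)
    rw [map_tau x₀ hr0, integral_smul_measure, h6, smul_zero] at h8
    rw [← h8, mul_zero]

/-- SCALE -/
theorem scale : ScaleStatement := by
  intro n p a α β x₀ r hr hop
  have hr0 := hr.ne'
  refine ⟨⟨hop.toGeo, hop.hα, hop.hαβ, ?_, fun y => hop.cont _, fun y => hop.ell _,
    fun y => hop.bdd _, fun y => hop.mono _, fun y => hop.hom _, fun y => hop.neg _⟩, ?_⟩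
  · have h1 : Measurable fun q : E n × E n => (x₀ + r • q.1, q.2) :=
      ((measurable_fst.const_smul r).const_add x₀).prodMk measurable_snd
    exact hop.meas.comp h1
  · intro U u hU
    refine ⟨fun h => harm_tau hop.hom x₀ hr h, fun h => ?_⟩
    have h1 := harm_tau (a := fun y ξ => a (x₀ + r • y) ξ) (p := p)
      (fun y => hop.hom _) (-(r⁻¹ • x₀)) (inv_pos.2 hr) h
    have h2 : ∀ x : E n, x₀ + r • tau (-(r⁻¹ • x₀)) r⁻¹ x = x := by
      intro x
      unfold tau
      rw [smul_add, smul_neg, smul_smul, smul_smul, mul_inv_cancel₀ hr0, one_smul, one_smul]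
      abel
    simp only [h2] at h1
    have h3 : tau (-(r⁻¹ • x₀)) r⁻¹ ⁻¹' ((fun y => x₀ + r • y) ⁻¹' U) = U := by
      ext x
      show x₀ + r • tau (-(r⁻¹ • x₀)) r⁻¹ x ∈ U ↔ x ∈ U
      rw [h2]
    rw [h3] at h1
    exact h1

/-- MONC -/
theorem monc : MoncStatement := by
  intro n p A M ε hA hε
  set K : Set (E n × E n) := closedBall 0 M ×ˢ sphere 0 ε with hK
  have hKc : IsCompact K := (isCompact_closedBall _ _).prod (isCompact_sphere _ _)
  set g : E n × E n → ℝ := fun q => ⟪A (q.1 + q.2) - A q.1, q.2⟫ with hg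
  have hgc : Continuous g :=
    ((hA.cont.comp (continuous_fst.add continuous_snd)).sub
      (hA.cont.comp continuous_fst)).inner continuous_snd
  have hpos : ∀ q ∈ K, 0 < g q := by
    rintro ⟨ξ, ζ⟩ ⟨-, h2⟩
    have h3 : ‖ζ‖ = ε := mem_sphere_zero_iff_norm.1 h2
    have h4 : ζ ≠ 0 := by
      intro h0
      rw [h0, norm_zero] at h3
      linarith
    have h5 := hA.mono (ξ + ζ) ξ (by simpa using h4)
    have h6 : ξ + ζ - ξ = ζ := by abel
    rw [h6] at h5
    exact h5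
  obtain ⟨δ, hδ, hδg⟩ : ∃ δ : ℝ, 0 < δ ∧ ∀ q ∈ K, δ ≤ g q := by
    rcases K.eq_empty_or_nonempty with h0 | h0
    · exact ⟨1, one_pos, fun q hq => by rw [h0] at hq; exact absurd hq (notMem_empty q)⟩
    · obtain ⟨q₀, hq₀, hmin⟩ := hKc.exists_isMinOn h0 hgc.continuousOn
      exact ⟨g q₀, hpos q₀ hq₀, fun q hq => hmin hq⟩
  refine ⟨δ, hδ, fun ξ η hξ hη => ?_⟩
  set t : ℝ := ‖η - ξ‖ / ε with ht
  have ht1 : 1 ≤ t := by
    rw [ht, le_div_iff₀ hε]
    linarith
  have ht0 : 0 < t := by linarith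
  set ζ : E n := t⁻¹ • (η - ξ) with hζ
  have hζn : ‖ζ‖ = ε := by
    rw [hζ, norm_smul, Real.norm_eq_abs, abs_of_nonneg (by positivity), ht]
    have h1 : 0 < ‖η - ξ‖ := by linarith
    field_simp
  have hη' : η = ξ + t • ζ := by
    rw [hζ, smul_smul, mul_inv_cancel₀ ht0.ne', one_smul]
    abel
  have h1 : δ ≤ ⟪A (ξ + ζ) - A ξ, ζ⟫ := hδg (ξ, ζ)
    ⟨mem_closedBall_zero_iff.2 hξ, mem_sphere_zero_iff_norm.2 hζn⟩
  have h2 : 0 ≤ ⟪A (ξ + t • ζ) - A (ξ + ζ), ζ⟫ := by
    rcases eq_or_lt_of_le ht1 with h3 | h3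
    · rw [← h3, one_smul, sub_self, inner_zero_left]
    · have h4 : ξ + t • ζ ≠ ξ + ζ := by
        intro h5
        have h6 : (t - 1) • ζ = 0 := by
          rw [sub_smul, one_smul]
          exact sub_eq_zero.2 (add_left_cancel h5)
        rcases smul_eq_zero.1 h6 with h7 | h7
        · linarith
        · rw [h7, norm_zero] at hζn
          linarith
      have h5 := hA.mono _ _ h4
      have h6 : ξ + t • ζ - (ξ + ζ) = (t - 1) • ζ := by
        rw [sub_smul, one_smul]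
        abel
      rw [h6, real_inner_smul_right] at h5
      have h7 : 0 < t - 1 := by linarith
      by_contra hcon
      have h8 := not_le.1 hcon
      nlinarith
  have h3 : ⟪A η - A ξ, η - ξ⟫ =
      t * (⟪A (ξ + t • ζ) - A (ξ + ζ), ζ⟫ + ⟪A (ξ + ζ) - A ξ, ζ⟫) := by
    rw [← inner_add_left]
    have h4 : A (ξ + t • ζ) - A (ξ + ζ) + (A (ξ + ζ) - A ξ) = A η - A ξ := by
      rw [hη']
      abel
    have h5 : η - ξ = t • ζ := by
      rw [hη']
      abel
    rw [h4, h5, real_inner_smul_right]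
  rw [h3]
  nlinarith

end Pool.Agent.Lib.MP_abd978_an.UN.H49
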