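import Pool.Agent.Lib.MP_abd978_an.UN.H52.Ed

/-!
# Project UNW, module SIGZ: the data of the third part, and `P(0)`
-/

set_option autoImplicit false

open MeasureTheory Metric Set Filter Topology ContDiff
open scoped Gradient RealInnerProductSpace NNReal ENNReal

namespace Pool.Agent.Lib.MP_abd978_an.UN.H49

/-! ### Measurability of the inverse -/

theorem measurable_inverse {n : ℕ} :
    Measurable (ContinuousLinearMap.inverse : (E n →L[ℝ] E n) → (E n →L[ℝ] E n)) := by
  classical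
  have h1 : (ContinuousLinearMap.inverse : (E n →L[ℝ] E n) → (E n →L[ℝ] E n)) =
      ({A : E n →L[ℝ] E n | IsUnit A} : Set (E n →L[ℝ] E n)).piecewise
        (ContinuousLinearMap.inverse : (E n →L[ℝ] E n) → (E n →L[ℝ] E n)) (fun _ => 0) := by
    funext A
    by_cases hA : IsUnit A
    · exact (piecewise_eq_of_mem _ _ _ (show A ∈ {A : E n →L[ℝ] E n | IsUnit A} from hA)).symm
    · rw [piecewise_eq_of_notMem (({A : E n →L[ℝ] E n | IsUnit A} : Set (E n →L[ℝ] E n))) _ _
        (show A ∉ {A : E n →L[ℝ] E n | IsUnit A} from hA),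
        ← ContinuousLinearMap.ringInverse_eq_inverse, Ring.inverse_non_unit _ hA]
  rw [h1]
  refine ContinuousOn.measurable_piecewise ?_ continuousOn_const
    Units.isOpen.measurableSet
  rintro A ⟨B, rfl⟩
  rw [← ContinuousLinearMap.ringInverse_eq_inverse]
  exact (NormedRing.inverse_continuousAt B).continuousWithinAt

theorem det_ne_of {n : ℕ} {A : E n →L[ℝ] E n} {k : ℝ} (hk : 0 < k)
    (h : ∀ η, k * ‖η‖ ≤ ‖A η‖) : A.det ≠ 0 := by
  have h1 := H52.pow_le_abs_det A k hk h
  intro h0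
  rw [h0, abs_zero] at h1
  have : 0 < k ^ n := by positivity
  linarith

theorem inverse_apply_of {n : ℕ} {A : E n →L[ℝ] E n} {k : ℝ} (hk : 0 < k)
    (h : ∀ η, k * ‖η‖ ≤ ‖A η‖) (v : E n) : A (A.inverse v) = v ∧ k * ‖A.inverse v‖ ≤ ‖v‖ := by
  have hdet := det_ne_of hk h
  have h2 : A (A.inverse v) = v := by
    have h3 : A.inverse = ((A.toContinuousLinearEquivOfDetNeZero hdet).symm : E n →L[ℝ] E n) := by
      rw [← ContinuousLinearMap.inverse_equiv,
        ContinuousLinearMap.coe_toContinuousLinearEquivOfDetNeZero]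
    rw [h3]
    exact (A.toContinuousLinearEquivOfDetNeZero hdet).apply_symm_apply v
  refine ⟨h2, ?_⟩
  have h3 := h (A.inverse v)
  rwa [h2] at h3

theorem measurable_Dt {n : ℕ} (f : E n → E n) : Measurable (Dt f) := by
  have h1 : Measurable (fderiv ℝ f) := measurable_fderiv ℝ f
  exact (ContinuousLinearMap.adjoint (𝕜 := ℝ) (E := E n) (F := E n)).continuous.measurable.comp h1

theorem measurable_grad {n : ℕ} (φ : E n → ℝ) : Measurable fun x => ∇ φ x := by
  have h1 : Measurable (fderiv ℝ φ) := measurable_fderiv ℝ φ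
  exact (InnerProductSpace.toDual ℝ (E n)).symm.continuous.measurable.comp h1

theorem measurable_F {n : ℕ} {f : E n → E n} {m : E n → ℝ} (hm : Measurable m) (φ : E n → ℝ) :
    Measurable fun x => m x • (Dt f x).inverse (∇ φ x) := by
  refine hm.smul ?_
  have h1 : Measurable fun x => ((Dt f x).inverse, ∇ φ x) :=
    (measurable_inverse.comp (measurable_Dt f)).prodMk (measurable_grad φ)
  exact (isBoundedBilinearMap_apply (𝕜 := ℝ) (E := E n) (F := E n)).continuous.measurable.comp h1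

/-! ### Bounds -/

theorem norm_Dt {n : ℕ} (f : E n → E n) (x : E n) : ‖Dt f x‖ = ‖fderiv ℝ f x‖ :=
  (ContinuousLinearMap.adjoint (𝕜 := ℝ) (E := E n) (F := E n)).norm_map _

/-- the derivative of a locally Lipschitz mapping is bounded on compact sets -/
theorem exists_bound {n : ℕ} {Ω : Set (E n)} {f : E n → E n} (hf : LocLip Ω f)
    {K : Set (E n)} (hK : IsCompact K) (hKΩ : K ⊆ Ω) :
    ∃ M : ℝ, 0 ≤ M ∧ ∀ x ∈ K, ‖fderiv ℝ f x‖ ≤ M := by
  refine hK.induction_on (p := fun S => ∃ M : ℝ, 0 ≤ M ∧ ∀ x ∈ S, ‖fderiv ℝ f x‖ ≤ M)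
    ⟨0, le_rfl, fun x hx => absurd hx (notMem_empty x)⟩ ?_ ?_ ?_
  · rintro S T hST ⟨M, hM, h⟩
    exact ⟨M, hM, fun x hx => h x (hST hx)⟩
  · rintro S T ⟨M, hM, h⟩ ⟨M', hM', h'⟩
    refine ⟨max M M', le_max_of_le_left hM, fun x hx => ?_⟩
    rcases hx with hx | hx
    · exact (h x hx).trans (le_max_left _ _)
    · exact (h' x hx).trans (le_max_right _ _)
  · intro x hx
    obtain ⟨C, U, hU, hC⟩ := hf x (hKΩ hx)
    refine ⟨interior U, mem_nhdsWithin_of_mem_nhds (interior_mem_nhds.2 hU), C, C.2,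
      fun y hy => ?_⟩
    exact norm_fderiv_le_of_lipschitzOn ℝ (mem_interior_iff_mem_nhds.1 hy) hC

theorem lipC_bound {n : ℕ} {Ω : Set (E n)} {φ : E n → ℝ} (h : LipC Ω φ) :
    ∃ M : ℝ, 0 ≤ M ∧ ∀ x, ‖∇ φ x‖ ≤ M := by
  obtain ⟨⟨C, hC⟩, -, -⟩ := h
  refine ⟨C, C.2, fun x => ?_⟩
  rw [norm_grad]
  exact norm_fderiv_le_of_lipschitz ℝ hC

theorem integrable_F {n : ℕ} {p : ℝ} {a b : E n → E n → E n} {Ω : Set (E n)} {f : E n → E n}
    {m : E n → ℝ} {c C : ℝ} (hp : 1 < p) (h : Reg p a b Ω f m c C) {φ : E n → ℝ}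
    (hφ : LipC Ω φ) : Integrable fun x => m x • (Dt f x).inverse (∇ φ x) := by
  obtain ⟨M, hM, hMb⟩ := exists_bound h.loclip hφ.2.1.isCompact hφ.2.2
  obtain ⟨L, hL, hLb⟩ := lipC_bound hφ
  have hc := h.hc
  have hC := h.hC
  have hK : Integrable ((tsupport φ).indicator fun _ => C * M ^ (p - 1) / c * L) :=
    (integrable_indicator_iff (isClosed_tsupport φ).measurableSet).2
      (integrableOn_const hφ.2.1.isCompact.measure_lt_top.ne)
  refine hK.mono (measurable_F h.measm φ).aestronglyMeasurable ?_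
  filter_upwards [h.dist, h.lower, h.upper] with x hd hlo hup
  by_cases hx : x ∈ tsupport φ
  · have hxΩ := hφ.2.2 hx
    rw [indicator_of_mem hx]
    rw [Real.norm_eq_abs (C * M ^ (p - 1) / c * L), abs_of_nonneg (by positivity)]
    rw [norm_smul, Real.norm_eq_abs]
    have hlo' := hlo hxΩ
    have hup' := hup hxΩ
    have hm0 : 0 ≤ m x := le_trans (by positivity) hlo'
    rw [abs_of_nonneg hm0]
    rcases eq_or_lt_of_le (norm_nonneg (fderiv ℝ f x)) with h0 | h0
    · rw [← h0, Real.zero_rpow (by linarith : p ≠ 0), mul_zero] at hup'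
      have h1 : m x = 0 := le_antisymm hup' hm0
      rw [h1, zero_mul]
      positivity
    · have h1 := (inverse_apply_of (A := Dt f x) (k := c * ‖fderiv ℝ f x‖) (by positivity)
        (hd hxΩ) (∇ φ x)).2
      have h2 : ‖(Dt f x).inverse (∇ φ x)‖ ≤ L / (c * ‖fderiv ℝ f x‖) := by
        rw [le_div_iff₀ (by positivity)]
        linarith [hLb x]
      calc m x * ‖(Dt f x).inverse (∇ φ x)‖
          ≤ (C * ‖fderiv ℝ f x‖ ^ p) * (L / (c * ‖fderiv ℝ f x‖)) :=
            mul_le_mul hup' h2 (norm_nonneg _) (by positivity)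
        _ = C * ‖fderiv ℝ f x‖ ^ (p - 1) / c * L := by
            rw [Real.rpow_sub_one h0.ne']
            field_simp
        _ ≤ C * M ^ (p - 1) / c * L := by
            have h3 : ‖fderiv ℝ f x‖ ^ (p - 1) ≤ M ^ (p - 1) :=
              Real.rpow_le_rpow h0.le (hMb x hx) (by linarith)
            gcongr
  · rw [indicator_of_notMem hx, grad_eq_zero_of_notMem hx, map_zero, smul_zero, norm_zero,
      norm_zero]

/-! ### The integral of `m Dt⁻¹ ∇ φ` -/

theorem lipC_pos {n : ℕ} {Ω : Set (E n)} {φ : E n → ℝ} (h : LipC Ω φ) :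
    LipC Ω fun x => max (φ x) 0 := by
  obtain ⟨⟨C, hC⟩, h2, h3⟩ := h
  refine ⟨⟨C, hC.max_const 0⟩, ?_, ?_⟩
  · exact h2.comp_left (g := fun t : ℝ => max t 0) (max_self 0)
  · refine (closure_mono ?_).trans h3
    intro x hx h0
    exact hx (by simp only; rw [h0, max_self])

theorem lipC_neg {n : ℕ} {Ω : Set (E n)} {φ : E n → ℝ} (h : LipC Ω φ) :
    LipC Ω fun x => -φ x := by
  obtain ⟨⟨C, hC⟩, h2, h3⟩ := h
  refine ⟨⟨C, hC.neg⟩, ?_, ?_⟩
  · exact h2.comp_left (g := fun t : ℝ => -t) neg_zero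
  · refine (closure_mono ?_).trans h3
    intro x hx h0
    exact hx (by simp only; rw [h0, neg_zero])

theorem integral_F (hTyx : TyxStatement) (hTz : TzStatement) {n : ℕ} {p : ℝ}
    {a b : E n → E n → E n} {α β α' β' : ℝ} {Ω : Set (E n)} {f : E n → E n}
    {m : E n → ℝ} {c C : ℝ} (hD : Dat n p a α β b α' β') (hf : Mor p a b Ω f)
    (h : Reg p a b Ω f m c C) {φ : E n → ℝ} (hφ : LipC Ω φ) :
    ∫ x, m x • (Dt f x).inverse (∇ φ x) = 0 := by
  have hn' : (2 : ℝ) ≤ n := by exact_mod_cast hD.hn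
  have hp1 : 1 < p := by linarith [hD.hp]
  have hpos : ∀ φ : E n → ℝ, (∀ x, 0 ≤ φ x) → LipC Ω φ →
      ∫ x, m x • (Dt f x).inverse (∇ φ x) = 0 := by
    intro φ h0 hφ
    obtain ⟨T, Y, R, hTY, hY⟩ := hTyx n p a α β b α' β' hD Ω f m c C hf h φ h0 hφ
    rw [← hY]
    exact hTz n p a α β R T Y hD.hn hD.hp hD.opa hTY
  have h1 := lipC_pos hφ
  have h2 := lipC_pos (lipC_neg hφ)
  have h3 : (fun x => m x • (Dt f x).inverse (∇ φ x)) =ᵐ[volume] fun x =>
      m x • (Dt f x).inverse (∇ (fun y => max (φ y) 0) x) -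
        m x • (Dt f x).inverse (∇ (fun y => max (-φ y) 0) x) := by
    obtain ⟨C₁, hC₁⟩ := h1.1
    obtain ⟨C₂, hC₂⟩ := h2.1
    filter_upwards [hC₁.ae_differentiableAt, hC₂.ae_differentiableAt] with x hx1 hx2
    have h4 : φ = fun y => max (φ y) 0 - max (-φ y) 0 := by
      funext y
      rcases le_total (φ y) 0 with h5 | h5
      · rw [max_eq_right h5, max_eq_left (by linarith)]
        ring
      · rw [max_eq_left h5, max_eq_right (by linarith)]
        ring
    have h5 : ∇ φ x = ∇ (fun y => max (φ y) 0) x - ∇ (fun y => max (-φ y) 0) x := by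
      rw [← grad_sub hx1 hx2]
      congr 1
    rw [h5, map_sub, smul_sub]
  rw [integral_congr_ae h3, integral_sub (integrable_F hp1 h h1) (integrable_F hp1 h h2),
    hpos _ (fun x => le_max_right _ _) h1, hpos _ (fun x => le_max_right _ _) h2, sub_zero]

/-! ### The data `Sig` -/

theorem sig_ed {n : ℕ} {p : ℝ} {a b : E n → E n → E n} {Ω : Set (E n)} {f : E n → E n}
    {m : E n → ℝ} {c C : ℝ} (h : Reg p a b Ω f m c C) (K : Set (E n)) (hK : IsCompact K)
    (hKΩ : K ⊆ Ω) : ∃ C : ℝ, ∀ (z : E n) (ε : ℝ), 0 < ε →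
      ∫ x in K ∩ f ⁻¹' ball z ε, ‖fderiv ℝ f x‖ ^ p ≤ C * ε ^ n := by
  obtain ⟨C', hC'⟩ := h.ed K hK hKΩ
  refine ⟨C' * (volume : Measure (E n)).real (ball 0 1), fun z ε hε => ?_⟩
  have hmeas : Measurable fun x => ‖fderiv ℝ f x‖ ^ p :=
    (measurable_fderiv ℝ f).norm.pow_const p
  have hpre : MeasurableSet (f ⁻¹' ball z ε) := h.meas measurableSet_ball
  rw [integral_eq_lintegral_of_nonneg_ae (Eventually.of_forall fun x => by positivity)
    hmeas.aestronglyMeasurable]
  have h1 := hC' ((ball z ε).indicator fun _ => 1) (measurable_const.indicator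
    measurableSet_ball)
  have h2 : ∫⁻ x in K, (ball z ε).indicator (fun _ => (1 : ℝ≥0∞)) (f x) *
      ENNReal.ofReal (‖fderiv ℝ f x‖ ^ p) =
        ∫⁻ x in K ∩ f ⁻¹' ball z ε, ENNReal.ofReal (‖fderiv ℝ f x‖ ^ p) := by
    rw [inter_comm, ← Measure.restrict_restrict hpre, ← lintegral_indicator hpre]
    refine lintegral_congr fun x => ?_
    by_cases hx : f x ∈ ball z ε
    · rw [indicator_of_mem hx, indicator_of_mem (show x ∈ f ⁻¹' ball z ε from hx), one_mul]
    · rw [indicator_of_notMem hx, indicator_of_notMem (show x ∉ f ⁻¹' ball z ε from hx),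
        zero_mul]
  rw [h2, lintegral_indicator measurableSet_ball, setLIntegral_const, one_mul,
    Measure.addHaar_ball_of_pos _ _ hε, finrank_euclideanSpace_fin] at h1
  have h3 : C' * (ENNReal.ofReal (ε ^ n) * volume (ball (0 : E n) 1)) ≠ ⊤ :=
    ENNReal.mul_ne_top ENNReal.coe_ne_top
      (ENNReal.mul_ne_top ENNReal.ofReal_ne_top measure_ball_lt_top.ne)
  have h4 := ENNReal.toReal_mono h3 h1
  refine h4.trans (le_of_eq ?_)
  rw [ENNReal.toReal_mul, ENNReal.toReal_mul, ENNReal.toReal_ofReal (by positivity),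
    ENNReal.coe_toReal]
  show (C' : ℝ) * (ε ^ n * (volume : Measure (E n)).real (ball 0 1)) = _
  ring

/-! ### Determinants -/

/-- `v ↦ det [v, e_{l(0)}, ..., e_{l(N-1)}]` -/
noncomputable def lam {N : ℕ} (l : Fin N → Fin (N + 1)) : E (N + 1) →ₗ[ℝ] ℝ :=
  (bdet N).toMultilinearMap.toLinearMap
    (Fin.cons 0 fun i => EuclideanSpace.single (l i) 1) 0

theorem lam_apply {N : ℕ} (l : Fin N → Fin (N + 1)) (v : E (N + 1)) :
    lam l v = bdet N (Fin.cons v fun i => EuclideanSpace.single (l i) 1) := by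
  unfold lam
  rw [MultilinearMap.toLinearMap_apply, Fin.update_cons_zero]
  rfl

theorem mdet_eq {N : ℕ} (f : E (N + 1) → E (N + 1)) (x : E (N + 1))
    (w : Fin N → Fin (N + 1) ⊕ Fin (N + 1)) (l : Fin N → Fin (N + 1))
    (hw : ∀ i, w i = Sum.inr (l i)) (v : E (N + 1)) :
    mdet f x w (Dt f x v) = (fderiv ℝ f x).det * lam l v := by
  have h1 : (Fin.cons (Dt f x v) fun i => col f x (w i) : Fin (N + 1) → E (N + 1)) =
      (Dt f x : E (N + 1) →ₗ[ℝ] E (N + 1)) ∘
        (Fin.cons v fun i => EuclideanSpace.single (l i) 1) := by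
    funext j
    refine Fin.cases ?_ (fun i => ?_) j
    · rfl
    · show col f x (w i) = Dt f x (EuclideanSpace.single (l i) 1)
      rw [hw i]
      rfl
  rw [lam_apply]
  unfold mdet
  rw [h1]
  have h2 := Module.Basis.det_comp (EuclideanSpace.basisFun (Fin (N + 1)) ℝ).toBasis
    (Dt f x : E (N + 1) →ₗ[ℝ] E (N + 1)) (Fin.cons v fun i => EuclideanSpace.single (l i) 1)
  have h3 : LinearMap.det (Dt f x : E (N + 1) →ₗ[ℝ] E (N + 1)) = (fderiv ℝ f x).det :=
    H52.adjoint_det (fderiv ℝ f x)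
  rw [h3] at h2
  exact h2

theorem mdet_zero {N : ℕ} (f : E (N + 1) → E (N + 1)) (x : E (N + 1))
    (w : Fin N → Fin (N + 1) ⊕ Fin (N + 1)) : mdet f x w 0 = 0 := by
  unfold mdet
  exact (bdet N).map_coord_zero 0 rfl

/-- SIGZ -/
theorem sigz (hTyx : TyxStatement) (hTz : TzStatement) : SigzStatement := by
  intro N p a α β b α' β' hD Ω f m c C hf h
  have hn2 := hD.hn
  have hn' : (2 : ℝ) ≤ ((N + 1 : ℕ) : ℝ) := by exact_mod_cast hn2
  have hpN := hD.hp
  have hp1 : 1 < p := by linarith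
  have hc := h.hc
  have hC := h.hC
  have hpN' : (N : ℝ) + 1 < p := by
    have := hpN
    push_cast at this
    exact this
  have hdet : ∀ᵐ x : E (N + 1), x ∈ Ω → fderiv ℝ f x ≠ 0 →
      (c * ‖fderiv ℝ f x‖) ^ (N + 1) ≤ |(fderiv ℝ f x).det| := by
    filter_upwards [h.dist] with x hd hx hne
    have h1 : 0 < ‖fderiv ℝ f x‖ := norm_pos_iff.2 hne
    have h2 := H52.pow_le_abs_det (Dt f x) (c * ‖fderiv ℝ f x‖) (by positivity) (hd hx)
    have h3 : (Dt f x).det = (fderiv ℝ f x).det := H52.adjoint_det (fderiv ℝ f x)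
    rwa [h3] at h2
  refine ⟨⟨by omega, hpN', h.isOpen, h.meas, h.loclip, ?_, ?_⟩, ⟨?_, ?_⟩, ?_⟩
  · filter_upwards [hdet] with x hx hxΩ
    by_cases h0 : fderiv ℝ f x = 0
    · exact Or.inl h0
    · right
      intro h1
      have h2 := hx hxΩ h0
      rw [h1, abs_zero] at h2
      have h3 : 0 < ‖fderiv ℝ f x‖ := norm_pos_iff.2 h0
      have h4 : 0 < (c * ‖fderiv ℝ f x‖) ^ (N + 1) := by positivity
      linarith
  · intro K hK hKΩ
    exact sig_ed h K hK hKΩ
  · exact h.measm.div (ContinuousLinearMap.continuous_det.measurable.comp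
      (measurable_fderiv ℝ f))
  · refine ⟨C / c ^ (N + 1), ?_⟩
    filter_upwards [hdet, h.lower, h.upper] with x hx hlo hup hxΩ
    by_cases h0 : fderiv ℝ f x = 0
    · have h1 : (fderiv ℝ f x).det = 0 := by
        rw [h0]
        show LinearMap.det (0 : E (N + 1) →ₗ[ℝ] E (N + 1)) = 0
        rw [LinearMap.det_zero, finrank_euclideanSpace_fin, zero_pow (by omega)]
      rw [h1, div_zero, abs_zero]
      positivity
    · have h1 : 0 < ‖fderiv ℝ f x‖ := norm_pos_iff.2 h0
      have h2 := hx hxΩ h0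
      have hlo' := hlo hxΩ
      have hup' := hup hxΩ
      have hm0 : 0 ≤ m x := le_trans (by positivity) hlo'
      have h3 : 0 < (c * ‖fderiv ℝ f x‖) ^ (N + 1) := by positivity
      rw [abs_div, abs_of_nonneg hm0]
      calc m x / |(fderiv ℝ f x).det|
          ≤ (C * ‖fderiv ℝ f x‖ ^ p) / (c * ‖fderiv ℝ f x‖) ^ (N + 1) := by
            gcongr
        _ = C / c ^ (N + 1) * ‖fderiv ℝ f x‖ ^ (p - (N + 1)) := by
            have h4 : ‖fderiv ℝ f x‖ ^ (p - (N + 1)) =
                ‖fderiv ℝ f x‖ ^ p / ‖fderiv ℝ f x‖ ^ (N + 1) := by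
              rw [Real.rpow_sub h1, ← Real.rpow_natCast]
              push_cast
              rfl
            rw [h4, mul_pow]
            field_simp
  · intro w hw φ hφ
    have hw' : ∀ i, ∃ l, w i = Sum.inr l := by
      intro i
      rcases hi : w i with j | l
      · exfalso
        have h1 : i ∈ Finset.univ.filter fun i => (w i).isLeft = true := by
          simp [hi]
        have h2 : 0 < nl w := Finset.card_pos.2 ⟨i, h1⟩
        omega
      · exact ⟨l, rfl⟩
    choose l hl using hw'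
    have hI := integral_F hTyx hTz hD hf h hφ
    have hint := integrable_F hp1 h hφ
    have h1 : (fun x => m x / (fderiv ℝ f x).det * mdet f x w (∇ φ x)) =ᵐ[volume]
        fun x => (lam l).toContinuousLinearMap (m x • (Dt f x).inverse (∇ φ x)) := by
      filter_upwards [hdet, h.dist, h.lower, h.upper] with x hx hd hlo hup
      by_cases hxΩ : x ∈ Ω
      · by_cases h0 : fderiv ℝ f x = 0
        · have h2 : m x = 0 := by
            have hlo' := hlo hxΩ
            have hup' := hup hxΩ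
            rw [h0, norm_zero, Real.zero_rpow (by linarith : p ≠ 0), mul_zero] at hlo' hup'
            exact le_antisymm hup' hlo'
          rw [h2, zero_div, zero_mul, zero_smul, map_zero]
        · have h3 : 0 < ‖fderiv ℝ f x‖ := norm_pos_iff.2 h0
          have h4 := (inverse_apply_of (A := Dt f x) (k := c * ‖fderiv ℝ f x‖) (by positivity)
            (hd hxΩ) (∇ φ x)).1
          have h5 := hx hxΩ h0
          have h6 : (fderiv ℝ f x).det ≠ 0 := by
            intro h7
            rw [h7, abs_zero] at h5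
            have h8 : 0 < (c * ‖fderiv ℝ f x‖) ^ (N + 1) := by positivity
            linarith
          have h9 : mdet f x w (∇ φ x) =
              (fderiv ℝ f x).det * lam l ((Dt f x).inverse (∇ φ x)) := by
            rw [← mdet_eq f x w l hl, h4]
          rw [h9, map_smul, smul_eq_mul, LinearMap.coe_toContinuousLinearMap']
          field_simp
      · have h2 : x ∉ tsupport φ := fun h3 => hxΩ (hφ.2.2 h3)
        rw [grad_eq_zero_of_notMem h2, mdet_zero, mul_zero, map_zero, smul_zero, map_zero]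
    rw [integral_congr_ae h1, ContinuousLinearMap.integral_comp_comm _ hint, hI, map_zero]

end Pool.Agent.Lib.MP_abd978_an.UN.H49
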