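import Pool.Agent.Lib.MP_abd978_an.UN.Interfaces

/-!
# Project UNW, module PGROW: growth at the poles

`u` is a solution with poles. Near a pole `z`, `|u - u(z)|` is at most a multiple of
`|x - z|^al` (comparison with potentials of small balls), and the energy of the ball of radius
`r` is at most a multiple of `r^al` (the Caccioppoli estimate with `(u - u(z)) η^m`).
-/

set_option autoImplicit false

open MeasureTheory Metric Set Filter Topology ContDiff
open scoped Gradient RealInnerProductSpace NNReal ENNReal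

namespace Pool.Agent.Lib.MP_abd978_an.UN.H49

/-! ### Pairing with the kernels -/

/-- `⟪F, G⟫` is integrable for `F ∈ L^{p'}(B)`, `G ∈ L^p`, `G = 0` outside `B` -/
theorem integrable_inner_of {n : ℕ} {p : ℝ} (hp : 1 < p) {B : Set (E n)}
    {F G : E n → E n} (hF : MemLp F (ENNReal.ofReal (dx p)) (volume.restrict B))
    (hG : MemLp G (ENNReal.ofReal p) volume) (hG0 : ∀ᵐ x ∂(volume.restrict Bᶜ), G x = 0) :
    Integrable fun x => ⟪F x, G x⟫ := by
  have hconj : p.HolderConjugate (dx p) := by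
    have h := Real.HolderConjugate.conjExponent hp
    exact h
  have : ENNReal.HolderConjugate (ENNReal.ofReal (dx p)) (ENNReal.ofReal p) :=
    hconj.symm.ennrealOfReal
  have h1 : Integrable (fun x => ⟪F x, G x⟫) (volume.restrict B) := by
    have h2 : Integrable (fun x => ‖F x‖ * ‖G x‖) (volume.restrict B) :=
      hF.norm.integrable_mul (hG.restrict B).norm
    refine h2.mono (hF.1.inner (hG.restrict B).1) (Eventually.of_forall fun x => ?_)
    rw [Real.norm_eq_abs, Real.norm_eq_abs, abs_of_nonneg (a := ‖F x‖ * ‖G x‖) (by positivity)]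
    exact abs_real_inner_le_norm _ _
  have h3 : Integrable (fun x => ⟪F x, G x⟫) (volume.restrict Bᶜ) := by
    refine (integrable_zero (E n) ℝ (volume.restrict Bᶜ)).congr ?_
    filter_upwards [hG0] with x hx
    rw [hx, inner_zero_right]
    rfl
  have h4 := (integrableOn_union (s := B) (t := Bᶜ) (f := fun x => ⟪F x, G x⟫)
    (μ := volume)).2 ⟨h1, h3⟩
  rw [union_compl_self] at h4
  exact integrableOn_univ.1 h4

theorem pair_poles (hKer : KerStatement) {n : ℕ} {p R : ℝ} {a : E n → E n → E n}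
    {s : Finset (E n)} {w : E n → ℝ} {u : E n → ℝ} {U : E n → E n} (hn : 2 ≤ n)
    (hp : (n : ℝ) < p) (hR : 0 < R)
    (hsol : Sol p a R (fun x => ∑ z ∈ s, w z • ker z x) u U) {ψ : E n → ℝ} {V : E n → E n}
    (hψ : H0 volume p (ball 0 R) ψ V) (hc : Continuous ψ) :
    ∫ x, ⟪a x (U x), V x⟫ = ∑ z ∈ s, w z * ψ z := by
  obtain ⟨hk1, -, -, hk4⟩ := hKer n p R hn hp hR
  have hn' : (2 : ℝ) ≤ n := by exact_mod_cast hn
  have hp1 : 1 < p := by linarith
  rw [hsol.eqn ψ V hψ]
  have hV0 := (hψ.ae_eq_zero hp1 measurableSet_ball).2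
  have hint : ∀ z, Integrable fun x => ⟪ker z x, V x⟫ := fun z =>
    integrable_inner_of hp1 (hk1 z) hψ.2.1 hV0
  have h1 : ∀ x, ⟪∑ z ∈ s, w z • ker z x, V x⟫ = ∑ z ∈ s, w z * ⟪ker z x, V x⟫ := by
    intro x
    rw [sum_inner]
    refine Finset.sum_congr rfl fun z _ => ?_
    rw [real_inner_smul_left]
  simp only [h1]
  rw [integral_finsetSum _ fun z _ => (hint z).const_mul _]
  refine Finset.sum_congr rfl fun z _ => ?_
  rw [integral_const_mul, hk4 z ψ V hψ hc]

theorem H0.isSob0 {n : ℕ} {p : ℝ} {D : Set (E n)} {u : E n → ℝ} {U : E n → E n}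
    (h : H0 volume p D u U) (D' : Set (E n)) : IsSob volume p D' u U := by
  have h0 : Test univ (fun _ : E n => (0 : ℝ)) :=
    ⟨contDiff_const, HasCompactSupport.zero, subset_univ _⟩
  have h1 : ∀ x : E n, ∇ (fun _ : E n => (0 : ℝ)) x = 0 := by
    intro x
    rw [grad_eq]
    simp
  refine H0.isSob (μ := volume) (g := fun _ => 0) (D := D) h0 ?_ D'
  simpa [h1] using h

theorem harm_off (hKer : KerStatement) {n : ℕ} {p R : ℝ} {a : E n → E n → E n}
    {s : Finset (E n)} {w : E n → ℝ} {u : E n → ℝ} {U : E n → E n} (hn : 2 ≤ n)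
    (hp : (n : ℝ) < p) (hR : 0 < R)
    (hsol : Sol p a R (fun x => ∑ z ∈ s, w z • ker z x) u U) {D : Set (E n)}
    (hD : D ⊆ ball 0 R) (hDs : ∀ z ∈ s, z ∉ D) : Harm volume p a D u := by
  refine ⟨hsol.cont.continuousOn, U, fun G _ _ _ => H0.isSob0 hsol.h0 G, fun φ hφ => ?_⟩
  rw [pair_poles hKer hn hp hR hsol (hφ.mono hD).h0 hφ.1.continuous]
  refine Finset.sum_eq_zero fun z hz => ?_
  rw [image_eq_zero_of_notMem_tsupport fun h => hDs z hz (hφ.2.2 h), mul_zero]

/-! ### Comparison with potentials of small balls -/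

theorem al_pos {n : ℕ} {p : ℝ} (hn : 2 ≤ n) (hp : (n : ℝ) < p) : 0 < al n p := by
  have hn' : (2 : ℝ) ≤ n := by exact_mod_cast hn
  unfold al
  apply div_pos <;> linarith

theorem growth_one (hHalg : HalgStatement) (hPotx : PotxStatement) (hPharm : PharmStatement)
    (hPotb : PotbStatement) (hComp : CompStatement) {n : ℕ} {p : ℝ} {a : E n → E n → E n}
    {α β : ℝ} (hn : 2 ≤ n) (hp : (n : ℝ) < p) (hop : Op p volume a α β) (z : E n) (S : ℝ)
    (hS : 0 < S) (u : E n → ℝ) (hu : Continuous u)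
    (hh : Harm volume p a (ball z S \ {z}) u) :
    ∃ C : ℝ, 0 ≤ C ∧ ∀ x, dist x z < S / 2 → u x - u z ≤ C * dist x z ^ al n p := by
  have hal := al_pos hn hp
  obtain ⟨c, C, hc, hC, hpot⟩ := hPotb n p a α β hn hp hop
  obtain ⟨M₀, hM₀⟩ := (isCompact_closedBall z S).exists_bound_of_continuousOn
    (f := fun x => u x - u z) ((hu.sub continuous_const).continuousOn)
  set M : ℝ := max M₀ 1 with hM
  have hM1 : 1 ≤ M := le_max_right _ _
  have hMb : ∀ x ∈ closedBall z S, u x - u z ≤ M := fun x hx =>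
    (le_abs_self _).trans ((hM₀ x hx).trans (le_max_left _ _))
  set q : ℝ := (1 / 2 : ℝ) ^ al n p with hq
  have hq0 : 0 < q := by positivity
  set K₀ : ℝ := M / (c * q) with hK₀
  have hK₀0 : 0 < K₀ := by positivity
  have key : ∀ x, 0 < dist x z → dist x z < S / 2 → ∀ ε : ℝ, 0 < ε →
      u x ≤ u z + ε + K₀ * (C * (dist x z / S) ^ al n p) := by
    intro x hx0 hxS ε hε
    obtain ⟨δ, hδ, hδu⟩ := Metric.continuousAt_iff.1 (hu.continuousAt (x := z)) ε hε
    set κ : ℝ := min δ (dist x z) / 16 with hκ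
    have hκ0 : 0 < κ := by positivity
    have hκδ : 16 * κ ≤ δ := by
      have := min_le_left δ (dist x z)
      linarith
    have hκx : 16 * κ ≤ dist x z := by
      have := min_le_right δ (dist x z)
      linarith
    have hκS : closedBall z κ ⊆ ball z S := closedBall_subset_ball (by linarith)
    obtain ⟨P, hP⟩ := hPotx n p volume a α β z S z κ hop hκ0 hκS
    obtain ⟨-, hPlow⟩ := hpot z S κ (S / 2) P hP (by linarith) le_rfl
    obtain ⟨hPup, -⟩ := hpot z S κ (dist x z) P hP (by linarith) hxS.le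
    have hPh := hPharm n p volume a α β z S z κ P hop hP
    set A : Set (E n) := {y | 8 * κ < dist y z ∧ dist y z < S / 2} with hA
    have hAo : IsOpen A := by
      have h1 : A = (fun y : E n => dist y z) ⁻¹' Ioo (8 * κ) (S / 2) := rfl
      rw [h1]
      exact isOpen_Ioo.preimage (continuous_id.dist continuous_const)
    have huA : Harm volume p a A u := hh.mono fun y hy =>
      ⟨mem_ball.2 (by linarith [hy.2]), fun h => by
        rw [mem_singleton_iff.1 h] at hy
        have := hy.1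
        rw [dist_self] at this
        linarith⟩
    have hPA : Harm volume p a A P := hPh.mono fun y hy =>
      ⟨mem_ball.2 (by linarith [hy.2]), fun h => by
        have h1 := mem_closedBall.1 h
        linarith [hy.1]⟩
    have hvA : Harm volume p a A fun y => (u z + ε + K₀) - K₀ * P y :=
      (hHalg n p volume a α β A _ hop hAo
        ((hHalg n p volume a α β A P hop hAo hPA).2 K₀ hK₀0)).1 _
    have hcont : ContinuousOn (fun y => u y - ((u z + ε + K₀) - K₀ * P y))
        (closedBall z (S / 2) \ ball z (8 * κ)) := by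
      refine hu.continuousOn.sub (continuousOn_const.sub (continuousOn_const.mul
        (hPh.1.mono ?_)))
      intro y hy
      refine ⟨mem_ball.2 (by linarith [mem_closedBall.1 hy.1]), fun h => hy.2 ?_⟩
      exact mem_ball.2 (by linarith [mem_closedBall.1 h])
    have hcomp := hComp n p a α β A u (fun y => (u z + ε + K₀) - K₀ * P y) (by omega) hop hAo
      huA hvA ?_ x ⟨by linarith, hxS⟩
    · have h1 : 1 - P x ≤ C * (dist x z / S) ^ al n p := hPup x ⟨mem_closedBall.2 le_rfl,
        fun h => by linarith [mem_closedBall.1 h]⟩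
      have h2 := mul_le_mul_of_nonneg_left h1 hK₀0.le
      linarith
    · intro ε' hε'
      refine ⟨(closedBall z (S / 2) \ ball z (8 * κ)) ∩
        (fun y => u y - ((u z + ε + K₀) - K₀ * P y)) ⁻¹' Ici ε', ?_, ?_, ?_⟩
      · have hcl : IsClosed (closedBall z (S / 2) \ ball z (8 * κ)) :=
          isClosed_closedBall.sdiff isOpen_ball
        exact (isCompact_closedBall z (S / 2)).of_isClosed_subset
          (hcont.preimage_isClosed_of_isClosed hcl isClosed_Ici)
          (inter_subset_left.trans sdiff_subset)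
      · rintro y ⟨⟨hy1, hy2⟩, hy3⟩
        have hy1' := mem_closedBall.1 hy1
        have hy2' : 8 * κ ≤ dist y z := by
          by_contra hcon
          exact hy2 (mem_ball.2 (not_le.1 hcon))
        have hy3' : ε' ≤ u y - ((u z + ε + K₀) - K₀ * P y) := hy3
        refine ⟨lt_of_le_of_ne hy2' fun heq => ?_, lt_of_le_of_ne hy1' fun heq => ?_⟩
        · have h1 : dist (u y) (u z) < ε := hδu (by rw [← heq]; linarith)
          rw [Real.dist_eq] at h1
          have h2 := le_abs_self (u y - u z)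
          have h3 : P y ≤ 1 := (hP.2.2.1 y).2
          have h4 : K₀ * P y ≤ K₀ := by nlinarith
          linarith
        · have h1 : c * (S / 2 / S) ^ al n p ≤ 1 - P y := hPlow y ⟨mem_ball.2 (by linarith),
            fun h => by
              have := mem_ball.1 h
              linarith⟩
          have h2 : S / 2 / S = 1 / 2 := by field_simp
          rw [h2, ← hq] at h1
          have h3 := mul_le_mul_of_nonneg_left h1 hK₀0.le
          have h4 : K₀ * (c * q) = M := by
            rw [hK₀]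
            field_simp
          rw [h4] at h3
          have h5 := hMb y (mem_closedBall.2 (by linarith))
          linarith
      · intro y hy hyK
        by_contra hcon
        apply hyK
        refine ⟨⟨mem_closedBall.2 hy.2.le, fun h => ?_⟩, ?_⟩
        · linarith [mem_ball.1 h, hy.1]
        · show ε' ≤ u y - ((u z + ε + K₀) - K₀ * P y)
          have := not_le.1 hcon
          linarith
  refine ⟨K₀ * C / S ^ al n p, by positivity, fun x hx => ?_⟩
  rcases eq_or_lt_of_le (dist_nonneg (x := x) (y := z)) with h0 | h0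
  · have h1 : x = z := dist_eq_zero.1 h0.symm
    rw [h1, dist_self, Real.zero_rpow hal.ne', mul_zero, sub_self]
  · have h1 : u x ≤ u z + K₀ * (C * (dist x z / S) ^ al n p) := by
      refine le_of_forall_pos_le_add fun ε hε => ?_
      have := key x h0 hx ε hε
      linarith
    rw [Real.div_rpow dist_nonneg hS.le] at h1
    have h2 : K₀ * (C * (dist x z ^ al n p / S ^ al n p)) =
        K₀ * C / S ^ al n p * dist x z ^ al n p := by ring
    linarith

theorem growth (hHalg : HalgStatement) (hPotx : PotxStatement) (hPharm : PharmStatement)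
    (hPotb : PotbStatement) (hComp : CompStatement) {n : ℕ} {p : ℝ} {a : E n → E n → E n}
    {α β : ℝ} (hn : 2 ≤ n) (hp : (n : ℝ) < p) (hop : Op p volume a α β) (z : E n) (S : ℝ)
    (hS : 0 < S) (u : E n → ℝ) (hu : Continuous u)
    (hh : Harm volume p a (ball z S \ {z}) u) :
    ∃ C : ℝ, 0 ≤ C ∧ ∀ x, dist x z < S / 2 → |u x - u z| ≤ C * dist x z ^ al n p := by
  obtain ⟨C₁, hC₁, h1⟩ := growth_one hHalg hPotx hPharm hPotb hComp hn hp hop z S hS u hu hh
  obtain ⟨C₂, hC₂, h2⟩ := growth_one hHalg hPotx hPharm hPotb hComp hn hp hop z S hS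
    (fun x => 0 - u x) (continuous_const.sub hu)
    ((hHalg n p volume a α β _ u hop (isOpen_ball.sdiff isClosed_singleton) hh).1 0)
  refine ⟨max C₁ C₂, le_max_of_le_left hC₁, fun x hx => abs_le.2 ⟨?_, ?_⟩⟩
  · have h3 := h2 x hx
    have h4 : C₂ * dist x z ^ al n p ≤ max C₁ C₂ * dist x z ^ al n p :=
      mul_le_mul_of_nonneg_right (le_max_right _ _) (by positivity)
    linarith
  · exact (h1 x hx).trans (mul_le_mul_of_nonneg_right (le_max_left _ _) (by positivity))

/-! ### The energy near a pole -/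

/-- Young's inequality in a simple form -/
theorem young {p X Y δ : ℝ} (hp : 1 < p) (hX : 0 ≤ X) (hY : 0 ≤ Y) (hδ : 0 < δ) :
    X ^ (p - 1) * Y ≤ δ * X ^ p + δ ^ (1 - p) * Y ^ p := by
  have hXp : 0 ≤ X ^ p := by positivity
  have hYp : 0 ≤ Y ^ p := by positivity
  have hδp : 0 ≤ δ ^ (1 - p) := by positivity
  rcases le_or_gt Y (δ * X) with h | h
  · have h1 : X ^ (p - 1) * Y ≤ X ^ (p - 1) * (δ * X) :=
      mul_le_mul_of_nonneg_left h (by positivity)
    have h2 : X ^ (p - 1) * (δ * X) = δ * X ^ p := by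
      rcases eq_or_lt_of_le hX with h0 | h0
      · rw [← h0, Real.zero_rpow (by linarith : p ≠ 0)]
        simp
      · have h3 : X ^ p = X ^ (p - 1) * X := by
          rw [← Real.rpow_add_one h0.ne']
          congr 1
          ring
        rw [h3]
        ring
    have h3 : 0 ≤ δ ^ (1 - p) * Y ^ p := by positivity
    linarith
  · have hY0 : 0 < Y := lt_of_le_of_lt (by positivity) h
    have hXY : X ≤ Y / δ := by
      rw [le_div_iff₀ hδ]
      linarith
    have h1 : X ^ (p - 1) ≤ (Y / δ) ^ (p - 1) := Real.rpow_le_rpow hX hXY (by linarith)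
    have h2 : X ^ (p - 1) * Y ≤ (Y / δ) ^ (p - 1) * Y := mul_le_mul_of_nonneg_right h1 hY
    have h3 : (Y / δ) ^ (p - 1) * Y = δ ^ (1 - p) * Y ^ p := by
      rw [Real.div_rpow hY hδ.le]
      have h4 : Y ^ p = Y ^ (p - 1) * Y := by
        rw [← Real.rpow_add_one hY0.ne']
        congr 1
        ring
      have h5 : δ ^ (1 - p) = (δ ^ (p - 1))⁻¹ := by
        rw [← Real.rpow_neg hδ.le]
        congr 1
        ring
      rw [h4, h5]
      ring
    have h4 : 0 ≤ δ * X ^ p := by positivity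
    linarith

/-- the pointwise inequality -/
theorem pointwise {n : ℕ} {p : ℝ} {a : E n → E n → E n} {α β : ℝ} (hp1 : 1 < p)
    (hop : Op p volume a α β) {m : ℕ} (hm : p ≤ m) (x : E n) (ξ g : E n) (t h : ℝ)
    (ht0 : 0 ≤ t) (ht1 : t ≤ 1) :
    α / 2 * (t ^ m * ‖ξ‖ ^ p) ≤
      ⟪a x ξ, h • (((m : ℝ) * t ^ (m - 1)) • g) + t ^ m • ξ⟫ +
        m * β * (α / (2 * (m * β))) ^ (1 - p) * (|h| * ‖g‖) ^ p := by
  have hα := hop.hα
  have hβ : 0 < β := hα.trans_le hop.hαβ
  have hm1 : (1 : ℝ) < m := hp1.trans_le hm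
  have hm0 : (0 : ℝ) < m := by linarith
  have hm1' : 1 ≤ m := by
    have : 1 < m := by exact_mod_cast hm1
    omega
  set δ : ℝ := α / (2 * (m * β)) with hδ
  have hδ0 : 0 < δ := by positivity
  set X : ℝ := t ^ ((m : ℝ) / p) * ‖ξ‖ with hX
  have hX0 : 0 ≤ X := by positivity
  have hXp : X ^ p = t ^ m * ‖ξ‖ ^ p := by
    rw [hX, Real.mul_rpow (by positivity) (norm_nonneg _), ← Real.rpow_mul ht0,
      div_mul_cancel₀ _ (by linarith : p ≠ 0), Real.rpow_natCast]
  have hXp1 : t ^ (m - 1) * ‖ξ‖ ^ (p - 1) ≤ X ^ (p - 1) := by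
    rw [hX, Real.mul_rpow (by positivity) (norm_nonneg _), ← Real.rpow_mul ht0]
    refine mul_le_mul_of_nonneg_right ?_ (by positivity)
    rcases eq_or_lt_of_le ht0 with h0 | h0
    · rw [← h0]
      rw [zero_pow (by
        have : 1 < m := by exact_mod_cast hm1
        omega)]
      positivity
    · have h1 : t ^ (m - 1) = t ^ ((m : ℝ) - 1) := by
        rw [← Real.rpow_natCast, Nat.cast_sub hm1', Nat.cast_one]
      rw [h1]
      refine Real.rpow_le_rpow_of_exponent_ge h0 ht1 ?_
      have h2 : (m : ℝ) / p * (p - 1) = m - m / p := by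
        field_simp
      rw [h2]
      have h3 : (1 : ℝ) ≤ m / p := by
        rw [le_div_iff₀ (by linarith)]
        linarith
      linarith
  have hy := young hp1 hX0 (by positivity : 0 ≤ |h| * ‖g‖) hδ0
  have h1 : ⟪a x ξ, h • (((m : ℝ) * t ^ (m - 1)) • g) + t ^ m • ξ⟫ =
      h * ((m : ℝ) * t ^ (m - 1)) * ⟪a x ξ, g⟫ + t ^ m * ⟪a x ξ, ξ⟫ := by
    rw [inner_add_right, real_inner_smul_right, real_inner_smul_right, real_inner_smul_right]
    ring
  have h2 : t ^ m * (α * ‖ξ‖ ^ p) ≤ t ^ m * ⟪a x ξ, ξ⟫ :=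
    mul_le_mul_of_nonneg_left (hop.ell x ξ) (by positivity)
  have h3 : |h * ((m : ℝ) * t ^ (m - 1)) * ⟪a x ξ, g⟫| ≤
      m * β * (X ^ (p - 1) * (|h| * ‖g‖)) := by
    have h4 : |⟪a x ξ, g⟫| ≤ β * ‖ξ‖ ^ (p - 1) * ‖g‖ :=
      (abs_real_inner_le_norm _ _).trans
        (mul_le_mul_of_nonneg_right (hop.bdd x ξ) (norm_nonneg _))
    rw [abs_mul, abs_mul, abs_mul, abs_of_nonneg hm0.le,
      abs_of_nonneg (by positivity : 0 ≤ t ^ (m - 1))]
    calc |h| * (↑m * t ^ (m - 1)) * |⟪a x ξ, g⟫|
        ≤ |h| * (↑m * t ^ (m - 1)) * (β * ‖ξ‖ ^ (p - 1) * ‖g‖) :=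
          mul_le_mul_of_nonneg_left h4 (by positivity)
      _ = m * β * (t ^ (m - 1) * ‖ξ‖ ^ (p - 1) * (|h| * ‖g‖)) := by ring
      _ ≤ m * β * (X ^ (p - 1) * (|h| * ‖g‖)) :=
          mul_le_mul_of_nonneg_left (mul_le_mul_of_nonneg_right hXp1 (by positivity))
            (by positivity)
  have h5 := mul_le_mul_of_nonneg_left hy (by positivity : 0 ≤ m * β)
  have h6 : m * β * (δ * X ^ p) = α / 2 * X ^ p := by
    rw [hδ]
    field_simp
  have h7 := neg_le_abs (h * ((m : ℝ) * t ^ (m - 1)) * ⟪a x ξ, g⟫)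
  rw [h1, ← hXp]
  rw [← mul_assoc, mul_comm (t ^ m) α, mul_assoc, ← hXp] at h2
  nlinarith [h2, h3, h5, h6, h7]

/-- the Caccioppoli estimate at a pole, with one cut-off function -/
theorem cacc_pole (hIntg : IntgStatement) (hKer : KerStatement) (hMult : MultStatement)
    {n : ℕ} {p R : ℝ} {a : E n → E n → E n} {α β : ℝ}
    {s : Finset (E n)} {w : E n → ℝ} {u : E n → ℝ} {U : E n → E n} (hn : 2 ≤ n)
    (hp : (n : ℝ) < p) (hop : Op p volume a α β) (hR : 0 < R)
    (hsol : Sol p a R (fun x => ∑ z ∈ s, w z • ker z x) u U) (z : E n) (η : E n → ℝ)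
    (hη : Test (ball 0 R) η) (hη01 : ∀ x, η x ∈ Icc (0 : ℝ) 1)
    (hηs : ∀ z' ∈ s, z' ≠ z → z' ∉ tsupport η) :
    α / 2 * ∫ x, η x ^ ⌈p⌉₊ * ‖U x‖ ^ p ≤
      (⌈p⌉₊ * β * (α / (2 * (⌈p⌉₊ * β))) ^ (1 - p)) *
        ∫ x, (|u x - u z| * ‖∇ η x‖) ^ p := by
  have hn' : (2 : ℝ) ≤ n := by exact_mod_cast hn
  have hp1 : 1 < p := by linarith
  have hα := hop.hα
  have hβ : 0 < β := hα.trans_le hop.hαβ
  set m : ℕ := ⌈p⌉₊ with hm
  have hmp : p ≤ m := Nat.le_ceil p
  have hm2 : 2 ≤ m := by
    have h1 : (1 : ℝ) < m := hp1.trans_le hmp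
    have h2 : 1 < m := by exact_mod_cast h1
    omega
  have hUp : MemLp U (ENNReal.ofReal p) volume := hsol.h0.2.1
  -- the test function
  have hηm : Test (ball 0 R) fun x => η x ^ m := by
    refine ⟨hη.1.pow m, ?_, ?_⟩
    · exact hη.2.1.comp_left (g := fun t : ℝ => t ^ m) (zero_pow (by omega))
    · refine (closure_mono ?_).trans hη.2.2
      intro x hx h0
      exact hx (by simp only [h0]; exact zero_pow (by omega))
  have hgm : ∀ x, ∇ (fun y => η y ^ m) x = ((m : ℝ) * η x ^ (m - 1)) • ∇ η x := by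
    intro x
    rw [grad_comp (f := η) (θ := fun t => t ^ m) (hη.1.differentiable (by simp) x)
      (differentiableAt_pow (n := m))]
    congr 1
    simp
  have hη2 : Test (ball 0 R) fun x => -(u z) * η x ^ m := by
    refine ⟨contDiff_const.mul hηm.1, ?_, ?_⟩
    · exact hηm.2.1.comp_left (g := fun t : ℝ => -(u z) * t) (mul_zero _)
    · refine (closure_mono ?_).trans hηm.2.2
      intro x hx h0
      exact hx (by simp only at h0 ⊢; rw [h0, mul_zero])
  have hg2 : ∀ x, ∇ (fun y => -(u z) * η y ^ m) x = -(u z) • ∇ (fun y => η y ^ m) x := by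
    intro x
    rw [grad_comp (f := fun y => η y ^ m) (θ := fun t => -(u z) * t)
      (hηm.1.differentiable (by simp) x) (differentiableAt_id.const_mul _)]
    congr 1
    simp
  have hH1 := hMult n p (ball 0 R) u U (fun x => η x ^ m) hp1 isOpen_ball
    (H0.isSob0 hsol.h0 _) hηm
  have hH := hH1.add hp1 (hη2.h0 (μ := volume) (p := p))
  set V : E n → E n := fun x =>
    (u x • ∇ (fun y => η y ^ m) x + η x ^ m • U x) + ∇ (fun y => -(u z) * η y ^ m) x with hV
  have hVeq : ∀ x, V x = (u x - u z) • (((m : ℝ) * η x ^ (m - 1)) • ∇ η x) +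
      η x ^ m • U x := by
    intro x
    rw [hV]
    simp only
    rw [hg2, hgm, sub_smul, neg_smul]
    abel
  have hpair : ∫ x, ⟪a x (U x), V x⟫ = 0 := by
    rw [pair_poles hKer hn hp hR hsol hH ((hηm.1.continuous.mul hsol.cont).add
      hη2.1.continuous)]
    refine Finset.sum_eq_zero fun z' hz' => ?_
    by_cases h : z' = z
    · rw [h]
      ring
    · have h1 : η z' = 0 := image_eq_zero_of_notMem_tsupport (hηs z' hz' h)
      rw [h1, zero_pow (by omega : m ≠ 0)]
      ring
  -- integrability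
  have hi1 : Integrable fun x => ⟪a x (U x), V x⟫ :=
    (hIntg n p volume volume a α β U V hop hUp hH.2.1).1
  have hUint : Integrable fun x => ‖U x‖ ^ p := by
    have h1 := hUp.integrable_norm_rpow (by
      have := one_le_ofReal hp1
      intro h0
      rw [h0] at this
      simp at this) ENNReal.ofReal_ne_top
    rwa [ENNReal.toReal_ofReal (by linarith)] at h1
  have hi2 : Integrable fun x => η x ^ m * ‖U x‖ ^ p := by
    refine hUint.mono ((hηm.1.continuous.aestronglyMeasurable).mul hUint.1)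
      (Eventually.of_forall fun x => ?_)
    have h1 : 0 ≤ η x ^ m := by
      have := (hη01 x).1
      positivity
    have h2 : η x ^ m ≤ 1 := pow_le_one₀ (hη01 x).1 (hη01 x).2
    rw [Real.norm_eq_abs, Real.norm_eq_abs, abs_of_nonneg (by positivity),
      abs_of_nonneg (by positivity)]
    exact mul_le_of_le_one_left (by positivity) h2
  have hi3 : Integrable fun x => (|u x - u z| * ‖∇ η x‖) ^ p := by
    refine Continuous.integrable_of_hasCompactSupport ?_ ?_
    · refine Continuous.rpow_const ?_ fun x => Or.inr (by linarith)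
      exact ((hsol.cont.sub continuous_const).abs).mul (continuous_grad hη.1).norm
    · refine HasCompactSupport.of_support_subset_isCompact hη.2.1 ?_
      intro x hx
      by_contra hcon
      apply hx
      simp only
      rw [grad_eq_zero_of_notMem hcon, norm_zero, mul_zero,
        Real.zero_rpow (by linarith : p ≠ 0)]
  have hpt : ∀ x, α / 2 * (η x ^ m * ‖U x‖ ^ p) ≤ ⟪a x (U x), V x⟫ +
      m * β * (α / (2 * (m * β))) ^ (1 - p) * (|u x - u z| * ‖∇ η x‖) ^ p := by
    intro x
    rw [hVeq x]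
    exact pointwise hp1 hop hmp x (U x) (∇ η x) (η x) (u x - u z) (hη01 x).1 (hη01 x).2
  have hI := integral_mono (hi2.const_mul (α / 2)) (hi1.add (hi3.const_mul _)) hpt
  have hI2 : ∫ x, (((fun x => ⟪a x (U x), V x⟫) + fun x =>
      m * β * (α / (2 * (m * β))) ^ (1 - p) * (|u x - u z| * ‖∇ η x‖) ^ p) x) =
      0 + m * β * (α / (2 * (m * β))) ^ (1 - p) * ∫ x, (|u x - u z| * ‖∇ η x‖) ^ p := by
    rw [← hpair, ← integral_const_mul]
    exact integral_add hi1 (hi3.const_mul _)
  rw [integral_const_mul] at hI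
  linarith

/-- PGROW -/
theorem pgrow (hCut : CutStatement) (hIntg : IntgStatement) (hHalg : HalgStatement)
    (hPotx : PotxStatement) (hPharm : PharmStatement) (hMult : MultStatement)
    (hComp : CompStatement) (hPotb : PotbStatement) (hKer : KerStatement) :
    PgrowStatement := by
  intro n p a α β R s w u U hn hp hop hR hs hsol z hz
  have hn' : (2 : ℝ) ≤ n := by exact_mod_cast hn
  have hp1 : 1 < p := by linarith
  have hal := al_pos hn hp
  have hα := hop.hα
  have hβ : 0 < β := hα.trans_le hop.hαβ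
  -- the radius
  have hopen : IsOpen (((s.erase z : Finset (E n)) : Set (E n))ᶜ ∩ ball 0 R) :=
    (s.erase z).finite_toSet.isClosed.isOpen_compl.inter isOpen_ball
  obtain ⟨r₁, hr₁, hsub⟩ := Metric.isOpen_iff.1 hopen z
    ⟨by simp, hs z hz⟩
  have hball : ball z r₁ ⊆ ball 0 R := fun x hx => (hsub hx).2
  have hother : ∀ z' ∈ s, z' ≠ z → z' ∉ ball z r₁ := by
    intro z' hz' hne hmem
    exact (hsub hmem).1 (by simp [hne, hz'])
  obtain ⟨C₂, hC₂, hgr⟩ := growth hHalg hPotx hPharm hPotb hComp hn hp hop z r₁ hr₁ u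
    hsol.cont (harm_off hKer hn hp hR hsol (sdiff_subset.trans hball) fun z' hz' hmem =>
      hother z' hz' hmem.2 hmem.1)
  obtain ⟨C₀, hC₀, hcut⟩ := hCut n
  set K : ℝ := ⌈p⌉₊ * β * (α / (2 * (⌈p⌉₊ * β))) ^ (1 - p) with hK
  have hK0 : 0 ≤ K := by positivity
  set om : ℝ := (volume : Measure (E n)).real (ball 0 1) with hom
  have hom0 : 0 ≤ om := measureReal_nonneg
  set B₁ : ℝ := C₂ * 2 ^ al n p * C₀ with hB₁
  have hB₁0 : 0 ≤ B₁ := by positivity
  refine ⟨2 / α * (K * (B₁ ^ p * (2 ^ n * om))), r₁ / 4, by positivity, fun r hr hr4 => ?_⟩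
  obtain ⟨η, hη, hη01, hη1, hηs, hηg⟩ := hcut z r (2 * r) hr (by linarith)
  have hηball : tsupport η ⊆ ball z r₁ :=
    hηs.trans (closedBall_subset_ball (by linarith))
  have hcp := cacc_pole hIntg hKer hMult hn hp hop hR hsol z η
    ⟨hη.1, hη.2.1, hηball.trans hball⟩ hη01
    (fun z' hz' hne hmem => hother z' hz' hne (hηball hmem))
  rw [← hK] at hcp
  -- the left side
  have hUint : Integrable fun x => ‖U x‖ ^ p := by
    have h1 := hsol.h0.2.1.integrable_norm_rpow (by
      have := one_le_ofReal hp1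
      intro h0
      rw [h0] at this
      simp at this) ENNReal.ofReal_ne_top
    rwa [ENNReal.toReal_ofReal (by linarith)] at h1
  have hnn : ∀ x, 0 ≤ η x ^ ⌈p⌉₊ * ‖U x‖ ^ p := fun x => by
    have := (hη01 x).1
    positivity
  have hi2 : Integrable fun x => η x ^ ⌈p⌉₊ * ‖U x‖ ^ p := by
    refine hUint.mono (((hη.1.continuous.pow _).aestronglyMeasurable).mul hUint.1)
      (Eventually.of_forall fun x => ?_)
    have h2 : η x ^ ⌈p⌉₊ ≤ 1 := pow_le_one₀ (hη01 x).1 (hη01 x).2
    rw [Real.norm_eq_abs, Real.norm_eq_abs, abs_of_nonneg (hnn x),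
      abs_of_nonneg (by positivity)]
    exact mul_le_of_le_one_left (by positivity) h2
  have hleft : ∫ x in ball z r, ‖U x‖ ^ p ≤ ∫ x, η x ^ ⌈p⌉₊ * ‖U x‖ ^ p := by
    have h1 : ∫ x in ball z r, ‖U x‖ ^ p = ∫ x in ball z r, η x ^ ⌈p⌉₊ * ‖U x‖ ^ p := by
      refine setIntegral_congr_fun measurableSet_ball fun x hx => ?_
      rw [hη1 x (ball_subset_closedBall hx), one_pow, one_mul]
    rw [h1]
    exact setIntegral_le_integral hi2 (Eventually.of_forall hnn)
  -- the right side
  set B : ℝ := C₂ * (2 * r) ^ al n p * (C₀ / r) with hB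
  have hB0 : 0 ≤ B := by positivity
  have hpt : ∀ x, (|u x - u z| * ‖∇ η x‖) ^ p ≤
      (closedBall z (2 * r)).indicator (fun _ => B ^ p) x := by
    intro x
    by_cases hx : x ∈ closedBall z (2 * r)
    · rw [indicator_of_mem hx]
      refine Real.rpow_le_rpow (by positivity) ?_ (by linarith)
      have h1 : |u x - u z| ≤ C₂ * (2 * r) ^ al n p := by
        have hx' := mem_closedBall.1 hx
        refine (hgr x (by linarith)).trans (mul_le_mul_of_nonneg_left ?_ hC₂)
        exact Real.rpow_le_rpow dist_nonneg hx' hal.le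
      have h2 : ‖∇ η x‖ ≤ C₀ / r := by
        have h3 := hηg x
        have h4 : 2 * r - r = r := by ring
        rwa [h4] at h3
      exact mul_le_mul h1 h2 (norm_nonneg _) (by positivity)
    · rw [indicator_of_notMem hx, grad_eq_zero_of_notMem fun h => hx (hηs h), norm_zero,
        mul_zero, Real.zero_rpow (by linarith : p ≠ 0)]
  have hright : ∫ x, (|u x - u z| * ‖∇ η x‖) ^ p ≤ B ^ p * ((2 * r) ^ n * om) := by
    have h1 : ∫ x, (closedBall z (2 * r)).indicator (fun _ => B ^ p) x =
        B ^ p * ((2 * r) ^ n * om) := by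
      rw [integral_indicator measurableSet_closedBall, setIntegral_const, smul_eq_mul,
        Measure.addHaar_real_closedBall _ _ (by positivity), finrank_euclideanSpace_fin]
      ring
    rw [← h1]
    refine integral_mono_of_nonneg (Eventually.of_forall fun x => by positivity) ?_
      (Eventually.of_forall hpt)
    exact (integrable_indicator_iff measurableSet_closedBall).2
      (integrableOn_const (measure_closedBall_lt_top (x := z) (r := 2 * r)).ne)
  have hBp : B ^ p * ((2 * r) ^ n * om) = B₁ ^ p * (2 ^ n * om) * r ^ al n p := by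
    have h1 : B = B₁ * r ^ (al n p - 1) := by
      rw [hB, hB₁, Real.mul_rpow (by norm_num) hr.le, Real.rpow_sub_one hr.ne']
      ring
    rw [h1, Real.mul_rpow hB₁0 (by positivity), ← Real.rpow_mul hr.le, mul_pow]
    have h2 : r ^ al n p = r ^ ((al n p - 1) * p) * r ^ n := by
      rw [← Real.rpow_natCast r n, ← Real.rpow_add hr]
      congr 1
      unfold al
      have : p - 1 ≠ 0 := by linarith
      field_simp
      ring
    rw [h2]
    ring
  have h1 : α / 2 * ∫ x in ball z r, ‖U x‖ ^ p ≤ K * (B₁ ^ p * (2 ^ n * om) * r ^ al n p) := by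
    rw [← hBp]
    calc α / 2 * ∫ x in ball z r, ‖U x‖ ^ p
        ≤ α / 2 * ∫ x, η x ^ ⌈p⌉₊ * ‖U x‖ ^ p :=
          mul_le_mul_of_nonneg_left hleft (by positivity)
      _ ≤ K * ∫ x, (|u x - u z| * ‖∇ η x‖) ^ p := hcp
      _ ≤ K * (B ^ p * ((2 * r) ^ n * om)) := mul_le_mul_of_nonneg_left hright hK0
  have h2 : ∫ x in ball z r, ‖U x‖ ^ p = 2 / α * (α / 2 * ∫ x in ball z r, ‖U x‖ ^ p) := by
    field_simp
  rw [h2]
  refine (mul_le_mul_of_nonneg_left h1 (by positivity)).trans (le_of_eq ?_)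
  ring

end Pool.Agent.Lib.MP_abd978_an.UN.H49
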